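import Pool.Agent.MP_257582_lc.H71K.Main

set_option autoImplicit false

namespace Pool.Agent.Results.MP_257582_lc.CliqueFourFree

/-- For every `n`, every non-trivial, isomorphism-invariant, upward-closed property of graphs on `n`
vertices such that every graph without the property has no clique on four vertices is evasive. -/
theorem result (n : ℕ) (P : SimpleGraph (Fin n) → Prop)
    (hmono : ∀ G H : SimpleGraph (Fin n), G ≤ H → P G → P H)
    (hinv : ∀ (σ : Fin n ≃ Fin n) (G : SimpleGraph (Fin n)), P G → P (G.map σ.toEmbedding))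
    (h1 : ∃ G : SimpleGraph (Fin n), P G) (h2 : ∃ G : SimpleGraph (Fin n), ¬ P G)
    (h4 : ∀ G : SimpleGraph (Fin n), ¬ P G → G.CliqueFree 4)
    (s : Finset (Sym2 (Fin n)) → SimpleGraph (Fin n) → Sym2 (Fin n))
    (hs : ∀ (Q : Finset (Sym2 (Fin n))) (G H : SimpleGraph (Fin n)),
      (∀ e ∈ Q, (e ∈ G.edgeSet ↔ e ∈ H.edgeSet)) → s Q G = s Q H) :
    ∃ G H : SimpleGraph (Fin n),
      (∀ e ∈ (fun Q : Finset (Sym2 (Fin n)) => insert (s Q G) Q)^[n.choose 2 - 1]
            (∅ : Finset (Sym2 (Fin n))),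
          (e ∈ G.edgeSet ↔ e ∈ H.edgeSet)) ∧ P G ∧ ¬ P H := by
  by_cases hn : 3 ≤ n
  · by_contra h
    exact Pool.Agent.MP_257582_lc.H71K.main hn P hmono hinv h1 h2 h4 s hs h
  · obtain ⟨G, hG⟩ := h1
    obtain ⟨H, hH⟩ := h2
    have h0 : n.choose 2 - 1 = 0 :=
      Nat.sub_eq_zero_of_le (Nat.choose_le_choose 2 (Nat.le_of_lt_succ (not_le.1 hn)))
    refine ⟨G, H, fun e he => ?_, hG, hH⟩
    rw [h0] at he
    exact absurd he (Finset.notMem_empty e)

end Pool.Agent.Results.MP_257582_lc.CliqueFourFree
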