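import Pool.Agent.MP_257582_lc.E99.V2All

set_option autoImplicit false

namespace Pool.Agent.Results.MP_257582_lc.ForbiddenSubgraph

/-- Let `F` be a set of graphs on a finite vertex set, none of them `(2 ^ k + w)`-colourable. Let
some member `K₀` be drawn on distinct points of the square lattice and split into `2 ^ k + w`
classes so that edges inside a class occur only in the first `2 ^ k` classes and have a power of two
as squared length. Then containing a copy of a member of `F` is evasive for all large `n`. -/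
theorem result (W : Type) [Finite W] (F : Set (SimpleGraph W)) (k w : ℕ)
    (hF : ∀ K ∈ F, ¬ K.Colorable (2 ^ k + w)) (K₀ : SimpleGraph W) (h₀ : K₀ ∈ F)
    (c : W → Fin (2 ^ k + w)) (p : W → ℤ × ℤ) (hp : Function.Injective p)
    (hl : ∀ u v, K₀.Adj u v → c u = c v → (c u : ℕ) < 2 ^ k ∧
      ∃ e : ℕ, ((p u).1 - (p v).1) ^ 2 + ((p u).2 - (p v).2) ^ 2 = 2 ^ e) :
    ∃ N : ℕ, ∀ n ≥ N,
      ∀ s : Finset (Sym2 (Fin n)) → SimpleGraph (Fin n) → Sym2 (Fin n),
        (∀ (Q : Finset (Sym2 (Fin n))) (G H : SimpleGraph (Fin n)),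
            (∀ e ∈ Q, (e ∈ G.edgeSet ↔ e ∈ H.edgeSet)) → s Q G = s Q H) →
        ∃ G H : SimpleGraph (Fin n),
          (∀ e ∈ (fun Q : Finset (Sym2 (Fin n)) => insert (s Q G) Q)^[n.choose 2 - 1]
                (∅ : Finset (Sym2 (Fin n))),
              (e ∈ G.edgeSet ↔ e ∈ H.edgeSet)) ∧
            (∃ K ∈ F, K.IsContained G) ∧ ¬ ∃ K ∈ F, K.IsContained H := by
  obtain ⟨N, hN, h⟩ := Pool.Agent.MP_257582_lc.E99.all2 W F k w hF K₀ h₀ c p hp hl
  refine ⟨N + 2, fun n hn s hs => ?_⟩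
  by_contra hc
  refine h n (by omega) _ _ (Pool.Agent.MP_257582_lc.setup_of_strategy
    (fun G => ∃ K ∈ F, K.IsContained G) (fun G H hGH ⟨K, k1, k2⟩ => ⟨K, k1, k2.mono_right hGH⟩)
    (fun σ G ⟨K, k1, k2⟩ => ⟨K, k1, k2.trans ⟨(SimpleGraph.Embedding.map σ.toEmbedding G).toCopy⟩⟩)
    ?_ ⟨⊥, fun ⟨K, k1, ⟨φ⟩⟩ => hF K k1 ⟨SimpleGraph.Coloring.mk c fun a => (φ.toHom.map_adj a).elim⟩⟩
    s hs hc) (Nat.sub_lt (Nat.choose_pos (by omega)) one_pos) fun G => by simp
  have := Fintype.ofFinite W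
  obtain ⟨j⟩ := Function.Embedding.nonempty_of_card_le (α := W) (β := Fin n) (by
    rw [Fintype.card_fin, ← Nat.card_eq_fintype_card]
    omega)
  exact ⟨⊤, K₀, h₀, ⟨⟨⟨j, fun a => j.injective.ne a.ne⟩, j.injective⟩⟩⟩

end Pool.Agent.Results.MP_257582_lc.ForbiddenSubgraph
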