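import Pool.Agent.MP_257582_lc.H99.Main

set_option autoImplicit false

namespace Pool.Agent.Results.MP_257582_lc.SparseBeyond

/-- There is `δ > 0` such that for all large `n`, every non-trivial, isomorphism-invariant, upward-closed
property of graphs on `n` vertices such that all graphs without the property have at most
`n ^ (3 / 2 + δ)` edges is evasive. -/
theorem result :
    ∃ δ : ℝ, 0 < δ ∧ ∃ N : ℕ, ∀ n ≥ N, ∀ P : SimpleGraph (Fin n) → Prop,
      (∀ G H : SimpleGraph (Fin n), G ≤ H → P G → P H) →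
      (∀ (σ : Fin n ≃ Fin n) (G : SimpleGraph (Fin n)), P G → P (G.map σ.toEmbedding)) →
      (∃ G : SimpleGraph (Fin n), P G) →
      (∃ G : SimpleGraph (Fin n), ¬ P G) →
      (∀ G : SimpleGraph (Fin n), ¬ P G →
        (G.edgeSet.ncard : ℝ) ≤ (n : ℝ) ^ ((3 : ℝ) / 2 + δ)) →
      ∀ s : Finset (Sym2 (Fin n)) → SimpleGraph (Fin n) → Sym2 (Fin n),
        (∀ (Q : Finset (Sym2 (Fin n))) (G H : SimpleGraph (Fin n)),
            (∀ e ∈ Q, (e ∈ G.edgeSet ↔ e ∈ H.edgeSet)) → s Q G = s Q H) →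
        ∃ G H : SimpleGraph (Fin n),
          (∀ e ∈ (fun Q : Finset (Sym2 (Fin n)) => insert (s Q G) Q)^[n.choose 2 - 1]
                (∅ : Finset (Sym2 (Fin n))),
              (e ∈ G.edgeSet ↔ e ∈ H.edgeSet)) ∧ P G ∧ ¬ P H := by
  obtain ⟨δ, hδ, N, hN⟩ := Pool.Agent.MP_257582_lc.H99.sparse
  refine ⟨δ, hδ, N, fun n hn P hmono hinv h1 h2 h3 s hs => ?_⟩
  by_contra h
  exact hN n hn _ (Pool.Agent.MP_257582_lc.setup_of_strategy P hmono hinv h1 h2 s hs h) h3

end Pool.Agent.Results.MP_257582_lc.SparseBeyond
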