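import Pool.Agent.MP_257582_lc.C5.Main

set_option autoImplicit false

namespace Pool.Agent.Results.MP_257582_lc.TwoFifths

/-- Every non-trivial, isomorphism-invariant, upward-closed property of graphs on `n` vertices has
decision-tree complexity more than `(2/5 - ε) n ^ 2` once `n` is large: an adaptive edge-query
strategy `s` that asks `d ≤ (2/5 - ε) n ^ 2` questions leaves some input `G` with the property
together with a graph `H` without it that gives the same answers. -/
theorem result :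
    ∀ ε : ℝ, 0 < ε → ∃ N : ℕ, ∀ n : ℕ, N ≤ n → ∀ P : SimpleGraph (Fin n) → Prop,
      (∀ G H : SimpleGraph (Fin n), G ≤ H → P G → P H) →
      (∀ (σ : Fin n ≃ Fin n) (G : SimpleGraph (Fin n)), P G → P (G.map σ.toEmbedding)) →
      (∃ G : SimpleGraph (Fin n), P G) →
      (∃ G : SimpleGraph (Fin n), ¬ P G) →
      ∀ s : Finset (Sym2 (Fin n)) → SimpleGraph (Fin n) → Sym2 (Fin n),
        (∀ (Q : Finset (Sym2 (Fin n))) (G H : SimpleGraph (Fin n)),
            (∀ e ∈ Q, (e ∈ G.edgeSet ↔ e ∈ H.edgeSet)) → s Q G = s Q H) →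
        ∀ d : ℕ, (d : ℝ) ≤ (2 / 5 - ε) * (n : ℝ) ^ 2 →
        ∃ G H : SimpleGraph (Fin n),
          (∀ e ∈ (fun Q : Finset (Sym2 (Fin n)) => insert (s Q G) Q)^[d]
                (∅ : Finset (Sym2 (Fin n))),
              (e ∈ G.edgeSet ↔ e ∈ H.edgeSet)) ∧ P G ∧ ¬ P H := by
  intro ε hε
  obtain ⟨N, hN⟩ := Pool.Agent.MP_257582_lc.C5.no_two_large ε hε
  refine ⟨N, fun n hn P h1 h2 h3 h4 s hs d hd => ?_⟩
  by_contra h
  exact hN n hn d hd _ (Pool.Agent.MP_257582_lc.setup_pair P h1 h2 h3 h4 s hs h)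

end Pool.Agent.Results.MP_257582_lc.TwoFifths
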